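import Pool.Agent.Helper35.SHQ.Sheet

/-!
SHQ: the clauses 2 and 3 of `Good` for `stepQ` (part of row SUM).
-/

namespace SHQ

open scoped ENNReal

namespace H48

/-- the sum over the words of length `n` -/
noncomputable def L : ℕ → (List Bool → ℝ≥0∞) → ℝ≥0∞
  | 0, f => f []
  | n + 1, f => L n (fun y => f (true :: y)) + L n (fun y => f (false :: y))

theorem tsum_cons_le (f : List Bool → ℝ≥0∞) :
    f [] + (∑' y, f (true :: y) + ∑' y, f (false :: y)) ≤ ∑' y, f y := by
  have h0 : ∑' y, ({[]} : Set (List Bool)).indicator f y = f [] := by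
    rw [← tsum_subtype, tsum_singleton]
  have hinj : ∀ t : Bool, Function.Injective (fun y : List Bool => t :: y) := fun t y y' h => by
    simpa using h
  have h1 : ∀ t : Bool, ∑' y, (Set.range (fun y : List Bool => t :: y)).indicator f y =
      ∑' y, f (t :: y) := by
    intro t
    rw [← tsum_subtype, tsum_range f (hinj t)]
  rw [← h0, ← h1 true, ← h1 false, ← ENNReal.tsum_add, ← ENNReal.tsum_add]
  refine ENNReal.tsum_le_tsum fun y => ?_
  rcases y with _ | ⟨t, y⟩
  · simp
  · cases t <;> simp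

theorem sum_L_le (Y : ℕ) : ∀ f : List Bool → ℝ≥0∞,
    ∑ n ∈ Finset.range Y, L n f ≤ ∑' y, f y := by
  induction Y with
  | zero => intro f; simp
  | succ Y ih =>
    intro f
    refine le_trans ?_ (tsum_cons_le f)
    rw [Finset.sum_range_succ']
    simp only [L]
    rw [Finset.sum_add_distrib, add_comm]
    exact add_le_add le_rfl (add_le_add (ih _) (ih _))

theorem L_len (n : ℕ) : ∀ (h : ℕ → ℝ≥0∞) (g : List Bool → ℝ≥0∞),
    L n (fun y => h y.length * g y) = h n * L n g := by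
  induction n with
  | zero => intro h g; simp [L]
  | succ n ih =>
    intro h g
    simp only [L, List.length_cons]
    rw [ih (fun k => h (k + 1)) (fun y => g (true :: y)),
      ih (fun k => h (k + 1)) (fun y => g (false :: y)), mul_add]

theorem L_const (n : ℕ) (c : ℝ≥0∞) (g : List Bool → ℝ≥0∞) :
    L n (fun y => c * g y) = c * L n g := L_len n (fun _ => c) g

/-- cast -/
noncomputable def c (x : ℚ) : ℝ≥0∞ := ENNReal.ofReal (x : ℝ)

theorem c_add {x y : ℚ} (hx : 0 ≤ x) (hy : 0 ≤ y) : c (x + y) = c x + c y := by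
  unfold c
  rw [Rat.cast_add, ENNReal.ofReal_add (by exact_mod_cast hx) (by exact_mod_cast hy)]

theorem c_mul {x y : ℚ} (hx : 0 ≤ x) : c (x * y) = c x * c y := by
  unfold c
  rw [Rat.cast_mul, ENNReal.ofReal_mul (by exact_mod_cast hx)]

theorem c_mono {x y : ℚ} (h : x ≤ y) : c x ≤ c y := by
  unfold c
  exact ENNReal.ofReal_le_ofReal (by exact_mod_cast h)

theorem c_one : c 1 = 1 := by
  unfold c; simp

theorem c_pow {x : ℚ} (hx : 0 ≤ x) (n : ℕ) : c (x ^ n) = c x ^ n := by
  induction n with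
  | zero => simp [c_one]
  | succ n ih => rw [pow_succ, c_mul (pow_nonneg hx n), ih, pow_succ]

theorem fl_le (x : ℚ) : fl x ≤ x := by
  unfold fl
  rw [div_le_iff₀ (by positivity)]
  exact Int.floor_le _

theorem fl_nonneg {x : ℚ} (hx : 0 ≤ x) : 0 ≤ fl x := by
  unfold fl
  have : (0 : ℤ) ≤ ⌊x * 10 ^ 10⌋ := Int.floor_nonneg.mpr (by positivity)
  have h2 : (0 : ℚ) ≤ ((⌊x * 10 ^ 10⌋ : ℤ) : ℚ) := by exact_mod_cast this
  positivity

/-! ## the state -/

structure Inv (z σ : ℚ) (r : Q3) (n : ℕ) (s : Stt) : Prop where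
  zp : s.zp = z ^ (n + 1)
  q : s.q = σ * (r.al + r.be) ^ n
  qp : s.qp = if n = 0 then 1 else 2 * r.al * (σ * (r.al + r.be) ^ (n - 1))
  hh : s.hh = σ * r.be ^ n
  sq : s.sq = ∑ m ∈ Finset.range n, z ^ (m + 1) * (σ * (r.al + r.be) ^ m)
  sqp : s.sqp = ∑ m ∈ Finset.range n, z ^ (m + 1) *
    (if m = 0 then 1 else 2 * r.al * (σ * (r.al + r.be) ^ (m - 1)))
  t : s.t = ∑ m ∈ Finset.range n, z ^ (m + 1) * (σ * r.be ^ m)

theorem inv (z σ : ℚ) (r : Q3) (n : ℕ) : Inv z σ r n ((Stt.next z r)^[n] (Stt.init z σ)) := by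
  induction n with
  | zero => constructor <;> simp [Stt.init]
  | succ n ih =>
    rw [Function.iterate_succ_apply']
    generalize (Stt.next z r)^[n] (Stt.init z σ) = s at ih
    constructor
    · simp only [Stt.next]; rw [ih.zp]; ring
    · simp only [Stt.next]; rw [ih.q]; ring
    · simp only [Stt.next]; rw [ih.q]; simp
    · simp only [Stt.next]; rw [ih.hh]; ring
    · simp only [Stt.next]; rw [ih.sq, ih.zp, ih.q, Finset.sum_range_succ]
    · simp only [Stt.next]; rw [ih.sqp, ih.zp, ih.qp, Finset.sum_range_succ]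
    · simp only [Stt.next]; rw [ih.t, ih.zp, ih.hh, Finset.sum_range_succ]

theorem stt_inv (Y : ℕ) (z σ : ℚ) (r : Q3) : Inv z σ r Y (stt Y z σ r) := inv z σ r Y

/-! ## clause 2 -/

theorem f12 : ∀ p : Fin 3, p + 1 ≠ p + 2 := by decide
theorem f1 : ∀ p : Fin 3, p ≠ p + 1 := by decide
theorem f2 : ∀ p : Fin 3, p ≠ p + 2 := by decide
theorem f3 : ∀ p b : Fin 3, b ≠ p → b = p + 1 ∨ b = p + 2 := by decide

theorem LV_succ (o : Om) (b p1 p2 : Fin 3) (F : Fin 3 → ℝ≥0∞) (n : ℕ) :
    L (n + 1) (fun y => ValC o b (fix (y.map (lt p1 p2))) F) =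
      w o b p1 * L n (fun y => ValC o p1 (fix (y.map (lt p1 p2))) F) +
      w o b p2 * L n (fun y => ValC o p2 (fix (y.map (lt p1 p2))) F) := by
  rw [← L_const, ← L_const]
  rfl

theorem LV_q (o : Om) (p1 p2 : Fin 3) (hp : p1 ≠ p2) (F : Fin 3 → ℝ≥0∞) (S : ℝ≥0∞)
    (h1 : F p1 = S) (h2 : F p2 = S) (n : ℕ) :
    L n (fun y => ValC o p1 (fix (y.map (lt p1 p2))) F) = S * (o.al + o.be) ^ n ∧
    L n (fun y => ValC o p2 (fix (y.map (lt p1 p2))) F) = S * (o.al + o.be) ^ n := by
  induction n with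
  | zero => simp [L, fix, ValC, h1, h2]
  | succ n ih =>
    rw [LV_succ, LV_succ, ih.1, ih.2]
    simp only [w, if_true, if_neg hp, if_neg hp.symm]
    constructor <;> ring

theorem c_q {σ : ℚ} {r : Q3} (hσ : 1 ≤ σ) (ha : 0 ≤ r.al) (hb : 0 ≤ r.be) (n : ℕ) :
    c (σ * (r.al + r.be) ^ n) = c σ * (r.om.al + r.om.be) ^ n := by
  rw [c_mul (by linarith), c_pow (by positivity), c_add ha hb]
  rfl

theorem c_sum (s : Finset ℕ) (f : ℕ → ℚ) (hf : ∀ n, 0 ≤ f n) :
    c (∑ n ∈ s, f n) = ∑ n ∈ s, c (f n) := by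
  unfold c
  rw [Rat.cast_sum, ENNReal.ofReal_sum_of_nonneg fun n _ => by exact_mod_cast hf n]

theorem two_c : c 2 = 2 := by
  unfold c
  simp

theorem be_clause (Y : ℕ) (z σ : ℚ) (r : Q3) (hz : 0 < z) (hσ : 1 ≤ σ) (ha : 0 ≤ r.al)
    (hb : 0 ≤ r.be) (p b : Fin 3) :
    c (stepQ Y z σ r).be * psi (c σ) p b ≤ ∑' y : List Bool, c z ^ (y.length + 1) *
      ValC r.om b (fix (y.map (lt (p + 1) (p + 2)))) (psi (c σ) p) := by
  refine le_trans ?_ (sum_L_le Y _)
  have hs : ∀ n, L n (fun y => c z ^ (y.length + 1) *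
      ValC r.om b (fix (y.map (lt (p + 1) (p + 2)))) (psi (c σ) p)) =
      c z ^ (n + 1) * L n (fun y =>
      ValC r.om b (fix (y.map (lt (p + 1) (p + 2)))) (psi (c σ) p)) := fun n =>
    L_len n (fun k => c z ^ (k + 1)) _
  simp only [hs]
  have hI := stt_inv Y z σ r
  have hp12 : p + 1 ≠ p + 2 := f12 p
  have hp1 : psi (c σ) p (p + 1) = c σ := by
    unfold psi
    rw [if_neg (f1 p)]
  have hp2 : psi (c σ) p (p + 2) = c σ := by
    unfold psi
    rw [if_neg (f2 p)]
  have hq := LV_q r.om (p + 1) (p + 2) hp12 (psi (c σ) p) (c σ) hp1 hp2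
  have hσ0 : (0 : ℚ) < σ := by linarith
  have hab : 0 ≤ r.al + r.be := by linarith
  by_cases hbp : b = p
  · subst hbp
    have hle : c (stepQ Y z σ r).be ≤ c (stt Y z σ r).sqp :=
      c_mono ((fl_le _).trans (min_le_left _ _))
    have hψ : psi (c σ) b b = 1 := by simp [psi]
    rw [hψ, mul_one]
    refine hle.trans (le_of_eq ?_)
    rw [hI.sqp, c_sum]
    · refine Finset.sum_congr rfl fun n _ => ?_
      rw [c_mul (by positivity), c_pow hz.le]
      congr 1
      rcases n with _ | n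
      · simp [L, fix, ValC, hψ, c_one]
      · rw [LV_succ, (hq n).1, (hq n).2, if_neg (by simp), c_mul (by positivity),
          c_mul (by norm_num), two_c, Nat.add_sub_cancel, c_q hσ ha hb]
        have hw1 : w r.om b (b + 1) = r.om.al := by
          unfold w
          rw [if_neg (f1 b)]
        have hw2 : w r.om b (b + 2) = r.om.al := by
          unfold w
          rw [if_neg (f2 b)]
        rw [hw1, hw2]
        have : c r.al = r.om.al := rfl
        rw [this]
        ring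
    · intro n
      split_ifs <;> positivity
  · have hle : (stepQ Y z σ r).be ≤ (stt Y z σ r).sq / σ :=
      (fl_le _).trans (min_le_right _ _)
    have hψ : psi (c σ) p b = c σ := by
      unfold psi
      rw [if_neg (Ne.symm hbp)]
    have hle2 : c (stepQ Y z σ r).be * c σ ≤ c (stt Y z σ r).sq := by
      rw [mul_comm, ← c_mul hσ0.le]
      refine c_mono ?_
      rw [le_div_iff₀ hσ0] at hle
      linarith
    rw [hψ]
    refine hle2.trans (le_of_eq ?_)
    rw [hI.sq, c_sum]
    · refine Finset.sum_congr rfl fun n _ => ?_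
      rw [c_mul (by positivity), c_pow hz.le, c_q hσ ha hb]
      congr 1
      have hb12 : b = p + 1 ∨ b = p + 2 := f3 p b hbp
      rcases hb12 with h | h
      · rw [h, (hq n).1]
      · rw [h, (hq n).2]
    · intro n
      positivity

/-! ## clause 3 -/

theorem rep_same (o : Om) (d : Fin 3) (f : Fin 3 → ℝ≥0∞) (j : ℕ) :
    ValC o d (fix (List.replicate j d)) f = f d * o.be ^ j := by
  induction j with
  | zero => simp [fix, ValC]
  | succ j ih =>
    rw [List.replicate_succ, fix, ValC, ih]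
    simp only [w, if_true]
    ring

theorem ka_clause (Y : ℕ) (z σ : ℚ) (r : Q3) (hz : 0 < z) (hσ : 1 ≤ σ) (ha : 0 ≤ r.al)
    (hb : 0 ≤ r.be) (s a d b : Fin 3) (hda : d ≠ a) :
    c (stepQ Y z σ r).ka * psi (c σ) s b ≤ ∑' j : ℕ, c z ^ (j + 1) *
      ValC r.om b (fix (List.replicate j d)) (psi (c σ) a) := by
  have hσ0 : (0 : ℚ) < σ := by linarith
  have h1σ : (1 : ℝ≥0∞) ≤ c σ := by
    rw [← c_one]; exact c_mono hσ
  have hψ : psi (c σ) s b ≤ c σ := by
    unfold psi
    split_ifs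
    · exact h1σ
    · exact le_rfl
  refine (mul_le_mul' le_rfl hψ).trans ?_
  have hI := stt_inv Y z σ r
  have hle : (stepQ Y z σ r).ka * σ ≤ min (stt Y z σ r).t (z + r.al * z * (stt Y z σ r).t) := by
    rw [← le_div_iff₀ hσ0]
    exact fl_le _
  have hψd : psi (c σ) a d = c σ := by
    unfold psi
    rw [if_neg (Ne.symm hda)]
  have ht : c (stt Y z σ r).t = ∑ n ∈ Finset.range Y, c z ^ (n + 1) * (c σ * r.om.be ^ n) := by
    rw [hI.t, c_sum]
    · refine Finset.sum_congr rfl fun n _ => ?_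
      rw [c_mul (by positivity), c_pow hz.le, c_mul hσ0.le, c_pow hb]
      rfl
    · intro n
      positivity
  have ht0 : 0 ≤ (stt Y z σ r).t := by
    rw [hI.t]
    positivity
  rw [mul_comm, ← c_mul hσ0.le, mul_comm]
  by_cases hbd : b = d
  · subst hbd
    refine (c_mono (hle.trans (min_le_left _ _))).trans ?_
    rw [ht]
    simp only [rep_same, hψd]
    exact ENNReal.sum_le_tsum _
  · refine (c_mono (hle.trans (min_le_right _ _))).trans ?_
    refine le_trans ?_ (ENNReal.sum_le_tsum (Finset.range (Y + 1)))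
    rw [Finset.sum_range_succ', c_add hz.le (by positivity), c_mul (by positivity), c_mul ha, ht,
      add_comm, Finset.mul_sum]
    refine add_le_add ?_ ?_
    · refine Finset.sum_le_sum fun n _ => le_of_eq ?_
      rw [List.replicate_succ, fix, ValC, rep_same, hψd]
      have hw : w r.om b d = r.om.al := by
        unfold w
        rw [if_neg hbd]
      rw [hw]
      have : c r.al = r.om.al := rfl
      rw [this]
      ring
    · have h1 : (1 : ℝ≥0∞) ≤ psi (c σ) a b := by
        unfold psi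
        split_ifs
        · exact le_rfl
        · exact h1σ
      simp only [List.replicate_zero, fix, ValC, zero_add, pow_one]
      calc c z = c z * 1 := (mul_one _).symm
        _ ≤ c z * psi (c σ) a b := mul_le_mul' le_rfl h1

/-! ## nonnegativity of be and ka -/

theorem be_nonneg (Y : ℕ) (z σ : ℚ) (r : Q3) (hz : 0 < z) (hσ : 1 ≤ σ) (ha : 0 ≤ r.al)
    (hb : 0 ≤ r.be) : 0 ≤ (stepQ Y z σ r).be := by
  have hI := stt_inv Y z σ r
  have hσ0 : (0 : ℚ) < σ := by linarith
  refine fl_nonneg (le_min ?_ (div_nonneg ?_ hσ0.le))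
  · rw [hI.sqp]
    refine Finset.sum_nonneg fun n _ => mul_nonneg (by positivity) ?_
    split_ifs <;> positivity
  · rw [hI.sq]
    exact Finset.sum_nonneg fun n _ => by positivity

theorem ka_nonneg (Y : ℕ) (z σ : ℚ) (r : Q3) (hz : 0 < z) (hσ : 1 ≤ σ) (ha : 0 ≤ r.al)
    (hb : 0 ≤ r.be) : 0 ≤ (stepQ Y z σ r).ka := by
  have hI := stt_inv Y z σ r
  have hσ0 : (0 : ℚ) < σ := by linarith
  have ht0 : 0 ≤ (stt Y z σ r).t := by
    rw [hI.t]
    exact Finset.sum_nonneg fun n _ => by positivity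
  exact fl_nonneg (div_nonneg (le_min ht0 (by positivity)) hσ0.le)

end H48

end SHQ
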